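import Pool.Agent.Helper64.OA.Final

set_option autoImplicit false

/-!
# MP_159373_co: strength close to the number of symbols
-/

namespace Pool.Agent.Results.MP_159373_co.LargeStrength

open Pool.Agent.Helper64.OA

/-- Upper bounds for the number of columns of an orthogonal array of index one over any alphabet
with `q` symbols and strength `q-1` or `q-2`, and the exact values for prime powers. -/
theorem result :
    (∀ q : ℕ, Odd q → 3 ≤ q → ∀ n : ℕ, HasOA q n (q - 1) → n ≤ q + 1) ∧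
    (∀ q : ℕ, Even q → 4 ≤ q → ¬ 3 ∣ q →
      (∀ n : ℕ, HasOA q n (q - 1) → n ≤ q + 2) ∧
      (∀ n : ℕ, HasOA q n (q - 2) → n ≤ q + 1)) ∧
    (∀ q : ℕ, IsPrimePow q → Odd q → IsGreatest {n : ℕ | HasOA q n (q - 1)} (q + 1)) ∧
    (∀ m : ℕ, 2 ≤ m →
      IsGreatest {n : ℕ | HasOA (2 ^ m) n (2 ^ m - 1)} (2 ^ m + 2) ∧
      IsGreatest {n : ℕ | HasOA (2 ^ m) n (2 ^ m - 2)} (2 ^ m + 1)) :=
  ⟨fun _ ho h3 _ h => up_odd ho h3 h,
    fun _ he h4 h3 => ⟨fun _ h => up_even (by omega) h3 h, fun _ h => up_even' he h4 h3 h⟩,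
    fun _ hq ho => exact_odd hq ho, fun _ hm => exact_two hm⟩

end Pool.Agent.Results.MP_159373_co.LargeStrength
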